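import Pool.Agent.helper21.OE.SpecA

/-!
# Project OE, row NRU: units have norm one
-/

namespace Pool.Agent.OE

theorem NRU_pos (d t : ℤ) (h : IsEuc d t) (x y : ℤ) : 0 ≤ x * x + t * x * y + d * (y * y) := by
  have e : 4 * (x * x + t * x * y + d * (y * y)) = (2 * x + t * y) ^ 2 + (4 * d - t ^ 2) * y ^ 2 := by
    ring
  have h1 : 0 ≤ 4 * d - t ^ 2 := by
    rcases h with ⟨rfl, rfl | rfl⟩ | ⟨rfl, rfl | rfl | rfl⟩ <;> norm_num
  have h2 : 0 ≤ (4 * d - t ^ 2) * y ^ 2 := mul_nonneg h1 (sq_nonneg _)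
  have h3 := sq_nonneg (2 * x + t * y)
  linarith

theorem NRU : NRU_stmt := by
  intro d t hdt z hz
  have h1 : IsUnit (QuadraticAlgebra.norm z) := hz.map QuadraticAlgebra.norm
  have h2 : QuadraticAlgebra.norm z = z.re * z.re + t * z.re * z.im + d * (z.im * z.im) := by
    rw [QuadraticAlgebra.norm_def]
    ring
  have h3 : 0 ≤ QuadraticAlgebra.norm z := by
    rw [h2]
    exact NRU_pos d t hdt z.re z.im
  have h4 : QuadraticAlgebra.norm z = 1 := by
    rcases Int.isUnit_iff.1 h1 with h | h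
    · exact h
    · rw [h] at h3
      omega
  rw [← QuadraticAlgebra.algebraMap_norm_eq_mul_star, h4, map_one]

end Pool.Agent.OE
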